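import Pool.Agent.Helper90.UN.Goals

/-!
PROJECT UN, packet CMP: compression.
-/

set_option autoImplicit false

noncomputable section

namespace Pool.Agent.Helper66.UN.CMP

open Module Pool.Agent.Helper97 Pool.Agent.Helper97.Nag Pool.Agent.Helper90.UN

/-- the matrix of the binomial coefficients is invertible -/
theorem exists_g (J : Finset ℕ) (i' : ℕ) (hi : i' < J.card) :
    ∃ g : ℕ → ℚ, ∀ i, i < J.card →
      ∑ j ∈ J, g j * ((j.choose i : ℕ) : ℚ) = if i = i' then 1 else 0 := by
  classical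
  set r := J.card with hr
  let e : Fin r ≃ J := J.equivFin.symm
  let v : Fin r → ℚ := fun a => ((e a : ℕ) : ℚ)
  have hv : Function.Injective v := by
    intro a a' h
    have h1 : ((e a : ℕ) : ℚ) = ((e a' : ℕ) : ℚ) := h
    have h2 : (e a : ℕ) = (e a' : ℕ) := by exact_mod_cast h1
    exact e.injective (Subtype.ext h2)
  let M : Matrix (Fin r) (Fin r) ℚ :=
    Matrix.of fun a i => (descPochhammer ℚ (i : ℕ)).eval (v a)
  have hdet : M.det ≠ 0 := by
    have h1 := Matrix.det_eval_matrixOfPolynomials_eq_det_vandermonde v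
      (fun i => descPochhammer ℚ (i : ℕ)) (fun i => descPochhammer_natDegree ℚ (i : ℕ))
      (fun i => monic_descPochhammer ℚ (i : ℕ))
    have h2 := Matrix.det_vandermonde_ne_zero_iff.2 hv
    rw [h1] at h2
    exact h2
  have hunit : IsUnit M.det := isUnit_iff_ne_zero.2 hdet
  have hinv : M⁻¹ * M = 1 := Matrix.nonsing_inv_mul M hunit
  refine ⟨fun j => if h : j ∈ J then
    ((i'.factorial : ℕ) : ℚ) * M⁻¹ ⟨i', hi⟩ (e.symm ⟨j, h⟩) else 0, ?_⟩
  intro i hir
  have h1 : ∑ j ∈ J, (if h : j ∈ J then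
      ((i'.factorial : ℕ) : ℚ) * M⁻¹ ⟨i', hi⟩ (e.symm ⟨j, h⟩) else 0) * ((j.choose i : ℕ) : ℚ) =
      ∑ a : Fin r, ((i'.factorial : ℕ) : ℚ) * M⁻¹ ⟨i', hi⟩ a *
        (((e a : ℕ).choose i : ℕ) : ℚ) := by
    rw [← Finset.sum_coe_sort J, ← Equiv.sum_comp e]
    apply Finset.sum_congr rfl
    intro a _
    rw [dif_pos (e a).2]
    have h9 : e.symm ⟨(e a : ℕ), (e a).2⟩ = a := e.symm_apply_apply a
    rw [h9]
  rw [h1]
  have h2 : ∀ a : Fin r, ((i.factorial : ℕ) : ℚ) * (((e a : ℕ).choose i : ℕ) : ℚ) =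
      M a ⟨i, hir⟩ := by
    intro a
    show _ = (descPochhammer ℚ i).eval (((e a : ℕ)) : ℚ)
    rw [descPochhammer_eval_eq_descFactorial, Nat.descFactorial_eq_factorial_mul_choose]
    push_cast
    ring
  have hfi : ((i.factorial : ℕ) : ℚ) ≠ 0 := by exact_mod_cast i.factorial_ne_zero
  have h3 : ((i.factorial : ℕ) : ℚ) * ∑ a : Fin r, ((i'.factorial : ℕ) : ℚ) * M⁻¹ ⟨i', hi⟩ a *
        (((e a : ℕ).choose i : ℕ) : ℚ) =
      ((i'.factorial : ℕ) : ℚ) * (M⁻¹ * M) ⟨i', hi⟩ ⟨i, hir⟩ := by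
    rw [Matrix.mul_apply, Finset.mul_sum, Finset.mul_sum]
    apply Finset.sum_congr rfl
    intro a _
    rw [← h2 a]
    ring
  rw [hinv, Matrix.one_apply] at h3
  apply mul_left_cancel₀ hfi
  rw [h3]
  by_cases hii : i = i'
  · subst hii
    simp
  · rw [if_neg hii, if_neg (by
      intro h
      exact hii (congrArg Fin.val h).symm)]
    simp

/-- the binomial identity -/
theorem binom (N j β : ℕ) (hj : j < N) (ε : ℚ) :
    ((j.choose β : ℕ) : ℚ) * (1 + ε) ^ j * ε ^ β =
      (1 + ε) ^ β * ∑ i ∈ Finset.range N, ((j.choose i : ℕ) : ℚ) * ((i.choose β : ℕ) : ℚ) * ε ^ i := by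
  by_cases hβ : β ≤ j
  · have h1 : ∑ i ∈ Finset.range N, ((j.choose i : ℕ) : ℚ) * ((i.choose β : ℕ) : ℚ) * ε ^ i =
        ∑ i ∈ Finset.Ico β (j + 1), ((j.choose i : ℕ) : ℚ) * ((i.choose β : ℕ) : ℚ) * ε ^ i := by
      symm
      apply Finset.sum_subset
      · intro i hi
        rw [Finset.mem_Ico] at hi
        rw [Finset.mem_range]
        omega
      · intro i _ hi
        rw [Finset.mem_Ico, not_and_or, not_le, not_lt] at hi
        rcases hi with hi | hi
        · rw [Nat.choose_eq_zero_of_lt hi]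
          simp
        · rw [Nat.choose_eq_zero_of_lt (show j < i by omega)]
          simp
    rw [h1, Finset.sum_Ico_eq_sum_range]
    have h2 : ∀ k ∈ Finset.range (j + 1 - β),
        ((j.choose (β + k) : ℕ) : ℚ) * (((β + k).choose β : ℕ) : ℚ) * ε ^ (β + k) =
        ((j.choose β : ℕ) : ℚ) * ε ^ β * (ε ^ k * 1 ^ (j - β - k) * (((j - β).choose k : ℕ) : ℚ)) := by
      intro k hk
      rw [Finset.mem_range] at hk
      have h3 := Nat.choose_mul (n := j) (k := β + k) (s := β) (show β ≤ β + k by omega)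
      rw [Nat.add_sub_cancel_left] at h3
      have h4 : ((j.choose (β + k) : ℕ) : ℚ) * (((β + k).choose β : ℕ) : ℚ) =
          ((j.choose β : ℕ) : ℚ) * (((j - β).choose k : ℕ) : ℚ) := by exact_mod_cast h3
      rw [h4, pow_add, one_pow]
      ring
    rw [Finset.sum_congr rfl h2, ← Finset.mul_sum,
      show j + 1 - β = j - β + 1 by omega, ← add_pow ε 1 (j - β)]
    have h5 : (1 + ε) ^ j = (1 + ε) ^ β * (1 + ε) ^ (j - β) := by
      rw [← pow_add, Nat.add_sub_cancel' hβ]
    rw [h5, add_comm ε 1]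
    ring
  · have h1 : ∑ i ∈ Finset.range N, ((j.choose i : ℕ) : ℚ) * ((i.choose β : ℕ) : ℚ) * ε ^ i = 0 := by
      apply Finset.sum_eq_zero
      intro i _
      by_cases h : i < β
      · rw [Nat.choose_eq_zero_of_lt h]
        simp
      · rw [Nat.choose_eq_zero_of_lt (show j < i by omega)]
        simp
    rw [h1, Nat.choose_eq_zero_of_lt (show j < β by omega)]
    simp

/-- a polynomial matrix which is injective at `0` is injective at some other point -/
theorem exists_eps {Rw I : Type} [Fintype Rw] [Fintype I] [DecidableEq I] [DecidableEq Rw]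
    (B : Matrix Rw I (Polynomial ℚ))
    (h0 : ∀ c : I → ℚ, (B.map (Polynomial.eval 0)).mulVec c = 0 → c = 0) :
    ∃ ε : ℚ, ε ≠ 0 ∧ 1 + ε ≠ 0 ∧
      ∀ c : I → ℚ, (B.map (Polynomial.eval ε)).mulVec c = 0 → c = 0 := by
  have hker : LinearMap.ker (Matrix.toLin' (B.map (Polynomial.eval 0))) = ⊥ := by
    rw [LinearMap.ker_eq_bot']
    intro c hc
    apply h0
    rw [Matrix.toLin'_apply] at hc
    exact hc
  obtain ⟨g, hg⟩ := LinearMap.exists_leftInverse_of_injective _ hker
  set L : Matrix I Rw ℚ := LinearMap.toMatrix' g with hL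
  have hLB : L * B.map (Polynomial.eval 0) = 1 := by
    have h1 : LinearMap.toMatrix' (g ∘ₗ Matrix.toLin' (B.map (Polynomial.eval 0))) =
        LinearMap.toMatrix' (LinearMap.id : (I → ℚ) →ₗ[ℚ] (I → ℚ)) := by rw [hg]
    rw [LinearMap.toMatrix'_comp, LinearMap.toMatrix'_toLin', LinearMap.toMatrix'_id] at h1
    exact h1
  set D : Polynomial ℚ := (L.map Polynomial.C * B).det with hD
  have hev : ∀ ε : ℚ, D.eval ε = (L * B.map (Polynomial.eval ε)).det := by
    intro ε
    have h1 := RingHom.map_det (Polynomial.evalRingHom ε) (L.map Polynomial.C * B)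
    rw [Polynomial.coe_evalRingHom] at h1
    rw [hD, h1, RingHom.mapMatrix_apply, Matrix.map_mul]
    congr 2
    ext a b
    simp
  have hD0 : D ≠ 0 := by
    intro h
    have h1 := hev 0
    rw [hLB, Matrix.det_one, h, Polynomial.eval_zero] at h1
    exact zero_ne_one h1
  have hP : D * Polynomial.X * (1 + Polynomial.X) ≠ 0 := by
    apply mul_ne_zero (mul_ne_zero hD0 Polynomial.X_ne_zero)
    rw [add_comm, ← Polynomial.C_1]
    exact Polynomial.X_add_C_ne_zero 1
  have hex : ∃ ε : ℚ, (D * Polynomial.X * (1 + Polynomial.X)).eval ε ≠ 0 := by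
    by_contra hcon
    apply hP
    apply Polynomial.funext
    intro r
    rw [Polynomial.eval_zero]
    by_contra h
    exact hcon ⟨r, h⟩
  obtain ⟨ε, hε⟩ := hex
  rw [Polynomial.eval_mul, Polynomial.eval_mul, Polynomial.eval_X, Polynomial.eval_add,
    Polynomial.eval_one, Polynomial.eval_X] at hε
  have hε1 : 1 + ε ≠ 0 := right_ne_zero_of_mul hε
  have hε2 : ε ≠ 0 := right_ne_zero_of_mul (left_ne_zero_of_mul hε)
  have hε3 : D.eval ε ≠ 0 := left_ne_zero_of_mul (left_ne_zero_of_mul hε)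
  rw [hev] at hε3
  refine ⟨ε, hε2, hε1, ?_⟩
  intro c hc
  apply Matrix.eq_zero_of_mulVec_eq_zero hε3
  rw [← Matrix.mulVec_mulVec, hc, Matrix.mulVec_zero]

/-- extraction of independent columns -/
theorem extract {Rw I : Type} [Fintype Rw] [Fintype I] (S : Finset (ℤ × ℤ))
    (col : ℤ × ℤ → Rw → ℚ) (w : I → Rw → ℚ) (hw : LinearIndependent ℚ w)
    (hs : ∀ z, w z ∈ Submodule.span ℚ (col '' (S : Set (ℤ × ℤ)))) :
    ∃ S' ⊆ S, S'.card = Fintype.card I ∧ LinearIndepOn ℚ col (S' : Set (ℤ × ℤ)) := by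
  classical
  obtain ⟨t, ht1, -, ht3, ht4⟩ := exists_linearIndepOn_extension (K := ℚ) (v := col)
    (linearIndepOn_empty ℚ col) (Set.empty_subset (S : Set (ℤ × ℤ)))
  have hfin : t.Finite := S.finite_toSet.subset ht1
  set T : Finset (ℤ × ℤ) := hfin.toFinset with hT
  have hTt : (T : Set (ℤ × ℤ)) = t := hfin.coe_toFinset
  have hspan : Submodule.span ℚ (Set.range w) ≤ Submodule.span ℚ (col '' t) := by
    rw [Submodule.span_le]
    rintro _ ⟨z, rfl⟩
    exact (Submodule.span_le.2 ht3) (hs z)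
  have h1 : Fintype.card I ≤ T.card := by
    rw [← finrank_span_eq_card hw]
    refine (Submodule.finrank_mono hspan).trans ?_
    have h2 : col '' t = ((T.image col : Finset (Rw → ℚ)) : Set (Rw → ℚ)) := by
      rw [Finset.coe_image, hTt]
    rw [h2]
    exact (finrank_span_finset_le_card (R := ℚ) (T.image col)).trans Finset.card_image_le
  obtain ⟨S', hS'1, hS'2⟩ := Finset.exists_subset_card_eq h1
  refine ⟨S', ?_, hS'2, ?_⟩
  · intro q hq
    have h2 : q ∈ (T : Set (ℤ × ℤ)) := hS'1 hq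
    rw [hTt] at h2
    exact ht1 h2
  · apply ht4.mono
    rw [← hTt]
    exact_mod_cast hS'1

theorem t : S_CMP := by
  classical
  intro b p m S R hS hR hC
  -- the levels
  set N : ℕ := S.sup (fun q => q.1.toNat) + 1 with hN
  have hNS : ∀ q ∈ S, q.1.toNat < N := by
    intro q hq
    have := Finset.le_sup (f := fun q : ℤ × ℤ => q.1.toNat) hq
    rw [hN]
    exact Nat.lt_succ_of_le this
  set J : ℤ → Finset ℕ := fun X => (Finset.range N).filter fun j => ((j : ℤ), X) ∈ S with hJ
  have hJN : ∀ X, (J X).card ≤ N := by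
    intro X
    refine (Finset.card_le_card (Finset.filter_subset _ _)).trans ?_
    rw [Finset.card_range]
  have hJc : ∀ X s, X ∈ lnv S s → s ≤ (J X).card := by
    intro X s hX
    rw [lnv, Finset.mem_filter] at hX
    refine hX.2.trans ?_
    apply Finset.card_le_card_of_injOn (fun q => q.1.toNat)
    · intro q hq
      rw [Finset.mem_coe, Finset.mem_filter] at hq
      rw [Finset.mem_coe, hJ]
      simp only [Finset.mem_filter, Finset.mem_range]
      refine ⟨hNS q hq.1, ?_⟩
      rw [Int.toNat_of_nonneg (hS q hq.1), ← hq.2]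
      exact hq.1
    · intro q hq q' hq' h
      rw [Finset.mem_coe, Finset.mem_filter] at hq hq'
      have h1 := hS q hq.1
      have h2 := hS q' hq'.1
      simp only at h
      apply Prod.ext
      · omega
      · rw [hq.2, hq'.2]
  have hg : ∀ (X : ℤ) (i' : ℕ), ∃ g : ℕ → ℚ, i' < (J X).card → ∀ i, i < (J X).card →
      ∑ j ∈ J X, g j * ((j.choose i : ℕ) : ℚ) = if i = i' then 1 else 0 := by
    intro X i'
    by_cases h : i' < (J X).card
    · obtain ⟨g, hg⟩ := exists_g (J X) i' h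
      exact ⟨g, fun _ => hg⟩
    · exact ⟨0, fun h' => absurd h' h⟩
  choose g hg using hg
  set lam : ℤ → ℕ → ℕ → ℚ := fun X i' i => ∑ j ∈ J X, g X i' j * ((j.choose i : ℕ) : ℚ) with hlam
  set IF : Finset (Σ _ : ℕ, ℤ) := (Finset.range (m + 1)).sigma R with hIF
  have hIc : ∀ z ∈ IF, z.1 < (J z.2).card := by
    intro z hz
    rw [hIF, Finset.mem_sigma, Finset.mem_range] at hz
    have := hJc z.2 (z.1 + 1) (hR z.1 (by omega) hz.2)
    omega
  -- the constants
  set K : Fin b → ℕ → ℤ → ℚ := fun l α X =>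
    ((Ring.choose X α : ℤ) : ℚ) * (((l : ℕ) : ℚ) + 1) ^ X with hK
  set B : Matrix (Fin b × Fin m × Fin m) IF (Polynomial ℚ) := Matrix.of fun ρ z =>
    if (ρ.2.1 : ℕ) + (ρ.2.2 : ℕ) < m then
      if p ≤ (ρ.1 : ℕ) then
        Polynomial.C (K ρ.1 ρ.2.1 z.1.2 * lam z.1.2 z.1.1 ρ.2.2) *
          Polynomial.X ^ ((ρ.2.2 : ℕ) - z.1.1)
      else ∑ i ∈ Finset.range N, Polynomial.C (((i.choose (ρ.2.2 : ℕ) : ℕ) : ℚ) *
        lam z.1.2 z.1.1 i * K ρ.1 ρ.2.1 z.1.2) * Polynomial.X ^ (i - z.1.1)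
    else 0 with hB
  have hlam1 : ∀ (z : IF) (i : ℕ), i ≤ z.1.1 → lam z.1.2 z.1.1 i = if i = z.1.1 then 1 else 0 := by
    intro z i hi
    exact hg z.1.2 z.1.1 (hIc z.1 z.2) i (lt_of_le_of_lt hi (hIc z.1 z.2))
  have hB0 : ∀ c : IF → ℚ, (B.map (Polynomial.eval 0)).mulVec c = 0 → c = 0 := by
    intro c hc
    set a : ℕ → ℤ → ℚ := fun i X => if h : (⟨i, X⟩ : Σ _ : ℕ, ℤ) ∈ IF then c ⟨⟨i, X⟩, h⟩ else 0
      with ha
    have hca : ∀ z : IF, c z = a z.1.1 z.1.2 := by
      intro z
      have h1 : (⟨z.1.1, z.1.2⟩ : Σ _ : ℕ, ℤ) ∈ IF := z.2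
      rw [ha]
      simp only
      rw [dif_pos h1]
    have hsum : ∀ G : ℕ → ℤ → ℚ, ∑ z : IF, G z.1.1 z.1.2 * c z =
        ∑ i ∈ Finset.range (m + 1), ∑ X ∈ R i, G i X * a i X := by
      intro G
      have h1 : ∀ z : IF, G z.1.1 z.1.2 * c z =
          (fun z : Σ _ : ℕ, ℤ => G z.1 z.2 * a z.1 z.2) z.1 := by
        intro z
        rw [hca z]
      rw [Finset.sum_congr rfl fun z _ => h1 z,
        Finset.sum_coe_sort IF (fun z : Σ _ : ℕ, ℤ => G z.1 z.2 * a z.1 z.2), hIF,
        Finset.sum_sigma]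
    have hrow : ∀ ρ, ∑ z : IF, (B ρ z).eval 0 * c z = 0 := by
      intro ρ
      have h1 := congrFun hc ρ
      simpa [Matrix.mulVec, dotProduct] using h1
    have hres := hC a ?_ ?_
    · funext z
      rw [hca z]
      have h1 : (z.1 : Σ _ : ℕ, ℤ) ∈ (Finset.range (m + 1)).sigma R := z.2
      rw [Finset.mem_sigma, Finset.mem_range] at h1
      exact hres z.1.1 (by omega) z.1.2 h1.2
    · intro l hl α β hαβ
      have h1 := hrow (l, ⟨α, by omega⟩, ⟨β, by omega⟩)
      have h2 : ∀ z : IF, (B (l, ⟨α, by omega⟩, ⟨β, by omega⟩) z).eval 0 =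
          (fun (i : ℕ) (X : ℤ) => if β = i then K l α X else 0) z.1.1 z.1.2 := by
        intro z
        simp only [hB, Matrix.of_apply]
        rw [if_pos hαβ, if_pos hl]
        rw [Polynomial.eval_mul, Polynomial.eval_C, Polynomial.eval_pow, Polynomial.eval_X]
        rcases lt_trichotomy β z.1.1 with h | h | h
        · rw [hlam1 z β h.le, if_neg h.ne, if_neg h.ne]
          simp
        · rw [hlam1 z β h.le, if_pos h, if_pos h, ← h]
          simp
        · rw [if_neg h.ne', zero_pow (by omega)]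
          simp
      rw [Finset.sum_congr rfl fun z _ => by rw [h2 z]] at h1
      rw [hsum (fun (i : ℕ) (X : ℤ) => if β = i then K l α X else 0)] at h1
      rw [Finset.sum_eq_single β] at h1
      · rw [← h1]
        apply Finset.sum_congr rfl
        intro X _
        rw [if_pos rfl, mul_comm]
      · intro i _ hi
        apply Finset.sum_eq_zero
        intro X _
        rw [if_neg (Ne.symm hi), zero_mul]
      · intro h
        exact absurd (Finset.mem_range.2 (by omega)) h
    · intro l hl α β hαβ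
      have h1 := hrow (l, ⟨α, by omega⟩, ⟨β, by omega⟩)
      have h2 : ∀ z : IF, (B (l, ⟨α, by omega⟩, ⟨β, by omega⟩) z).eval 0 =
          (fun (i : ℕ) (X : ℤ) => ((i.choose β : ℕ) : ℚ) * K l α X) z.1.1 z.1.2 := by
        intro z
        simp only [hB, Matrix.of_apply]
        rw [if_pos hαβ, if_neg (by omega)]
        rw [Polynomial.eval_finsetSum, Finset.sum_eq_single z.1.1]
        · rw [Polynomial.eval_mul, Polynomial.eval_C, Polynomial.eval_pow, Polynomial.eval_X,
            hlam1 z z.1.1 le_rfl, if_pos rfl]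
          simp
        · intro i _ hi
          rw [Polynomial.eval_mul, Polynomial.eval_C, Polynomial.eval_pow, Polynomial.eval_X]
          rcases lt_or_gt_of_ne hi with h | h
          · rw [hlam1 z i h.le, if_neg h.ne]
            simp
          · rw [zero_pow (by omega)]
            simp
        · intro h
          have h3 := hIc z.1 z.2
          have h4 := hJN z.1.2
          exact absurd (Finset.mem_range.2 (by omega)) h
      rw [Finset.sum_congr rfl fun z _ => by rw [h2 z]] at h1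
      rw [hsum (fun (i : ℕ) (X : ℤ) => ((i.choose β : ℕ) : ℚ) * K l α X)] at h1
      rw [← h1]
      apply Finset.sum_congr rfl
      intro i _
      rw [Finset.mul_sum]
      apply Finset.sum_congr rfl
      intro X _
      simp only [hK]
      ring
  obtain ⟨ε, hε0, hε1, hε⟩ := exists_eps B hB0
  set y : Fin b → ℚ := fun l => if p ≤ (l : ℕ) then 1 else 1 + ε with hy
  have hy0 : ∀ l, y l ≠ 0 := by
    intro l
    simp only [hy]
    split_ifs
    · exact one_ne_zero
    · exact hε1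
  set col : ℤ × ℤ → Fin b × Fin m × Fin m → ℚ := fun q ρ =>
    if (ρ.2.1 : ℕ) + (ρ.2.2 : ℕ) < m then
      y ρ.1 ^ q.1 * (((Ring.choose q.1 (ρ.2.2 : ℕ) : ℤ) : ℚ) *
        ((Ring.choose q.2 (ρ.2.1 : ℕ) : ℤ) : ℚ) * ((((ρ.1 : Fin b) : ℕ) : ℚ) + 1) ^ q.2) else 0
    with hcol
  set w : IF → Fin b × Fin m × Fin m → ℚ := fun z =>
    ∑ j ∈ J z.1.2, (g z.1.2 z.1.1 j * (ε ^ z.1.1)⁻¹) • col ((j : ℤ), z.1.2) with hw
  have hwB : ∀ (z : IF) (ρ : Fin b × Fin m × Fin m),
      w z ρ * ε ^ (ρ.2.2 : ℕ) = y ρ.1 ^ (ρ.2.2 : ℕ) * (B ρ z).eval ε := by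
    intro z ρ
    obtain ⟨l, α, β⟩ := ρ
    have hεz : ε ^ z.1.1 ≠ 0 := pow_ne_zero _ hε0
    have h1 : w z (l, α, β) = ∑ j ∈ J z.1.2, (g z.1.2 z.1.1 j * (ε ^ z.1.1)⁻¹) *
        col ((j : ℤ), z.1.2) (l, α, β) := by
      simp only [hw, Finset.sum_apply, Pi.smul_apply, smul_eq_mul]
    rw [h1]
    by_cases hαβ : (α : ℕ) + (β : ℕ) < m
    · have h2 : ∀ j : ℕ, col ((j : ℤ), z.1.2) (l, α, β) =
          K l α z.1.2 * (((j.choose (β : ℕ) : ℕ) : ℚ) * y l ^ j) := by
        intro j
        simp only [hcol, hK]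
        rw [if_pos hαβ, zpow_natCast, Ring.choose_natCast]
        push_cast
        ring
      simp only [h2]
      simp only [hB, Matrix.of_apply]
      rw [if_pos hαβ]
      by_cases hl : p ≤ (l : ℕ)
      · have hyl : y l = 1 := by simp only [hy]; rw [if_pos hl]
        rw [if_pos hl, hyl, one_pow, one_mul, Polynomial.eval_mul, Polynomial.eval_C,
          Polynomial.eval_pow, Polynomial.eval_X]
        have h3 : ∑ j ∈ J z.1.2, (g z.1.2 z.1.1 j * (ε ^ z.1.1)⁻¹) *
            (K l α z.1.2 * (((j.choose (β : ℕ) : ℕ) : ℚ) * 1 ^ j)) =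
            (ε ^ z.1.1)⁻¹ * (K l α z.1.2 * lam z.1.2 z.1.1 β) := by
          simp only [hlam, Finset.mul_sum]
          apply Finset.sum_congr rfl
          intro j _
          rw [one_pow]
          ring
        rw [h3]
        by_cases hβ : (β : ℕ) < z.1.1
        · rw [hlam1 z β hβ.le, if_neg hβ.ne]
          simp
        · have h4 : ε ^ (β : ℕ) = ε ^ z.1.1 * ε ^ ((β : ℕ) - z.1.1) := by
            rw [← pow_add]
            congr 1
            omega
          rw [h4]
          field_simp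
      · have hyl : y l = 1 + ε := by simp only [hy]; rw [if_neg hl]
        rw [if_neg hl, hyl, Polynomial.eval_finsetSum]
        have h3 : ∀ i ∈ Finset.range N, (Polynomial.C (((i.choose (β : ℕ) : ℕ) : ℚ) *
            lam z.1.2 z.1.1 i * K l α z.1.2) * Polynomial.X ^ (i - z.1.1)).eval ε =
            (ε ^ z.1.1)⁻¹ * K l α z.1.2 *
              (((i.choose (β : ℕ) : ℕ) : ℚ) * ε ^ i * lam z.1.2 z.1.1 i) := by
          intro i _
          rw [Polynomial.eval_mul, Polynomial.eval_C, Polynomial.eval_pow, Polynomial.eval_X]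
          by_cases hi : i < z.1.1
          · rw [hlam1 z i hi.le, if_neg hi.ne]
            simp
          · have h4 : ε ^ i = ε ^ z.1.1 * ε ^ (i - z.1.1) := by
              rw [← pow_add]
              congr 1
              omega
            rw [h4]
            field_simp
        rw [Finset.sum_congr rfl h3, ← Finset.mul_sum]
        have h5 : ∑ i ∈ Finset.range N, ((i.choose (β : ℕ) : ℕ) : ℚ) * ε ^ i * lam z.1.2 z.1.1 i =
            ∑ j ∈ J z.1.2, g z.1.2 z.1.1 j * ∑ i ∈ Finset.range N,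
              ((j.choose i : ℕ) : ℚ) * ((i.choose (β : ℕ) : ℕ) : ℚ) * ε ^ i := by
          simp only [hlam, Finset.mul_sum]
          rw [Finset.sum_comm]
          apply Finset.sum_congr rfl
          intro j _
          apply Finset.sum_congr rfl
          intro i _
          ring
        rw [h5, Finset.sum_mul]
        have h6 : (1 + ε) ^ (β : ℕ) * ((ε ^ z.1.1)⁻¹ * K l α z.1.2 *
            ∑ j ∈ J z.1.2, g z.1.2 z.1.1 j * ∑ i ∈ Finset.range N,
              ((j.choose i : ℕ) : ℚ) * ((i.choose (β : ℕ) : ℕ) : ℚ) * ε ^ i) =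
            ∑ j ∈ J z.1.2, (ε ^ z.1.1)⁻¹ * K l α z.1.2 * g z.1.2 z.1.1 j *
              ((1 + ε) ^ (β : ℕ) * ∑ i ∈ Finset.range N,
              ((j.choose i : ℕ) : ℚ) * ((i.choose (β : ℕ) : ℕ) : ℚ) * ε ^ i) := by
          rw [Finset.mul_sum, Finset.mul_sum]
          apply Finset.sum_congr rfl
          intro j _
          ring
        rw [h6]
        apply Finset.sum_congr rfl
        intro j hj
        have h7 : j < N := by
          simp only [hJ, Finset.mem_filter, Finset.mem_range] at hj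
          exact hj.1
        rw [← binom N j (β : ℕ) h7 ε]
        ring
    · have h2 : ∀ j : ℕ, col ((j : ℤ), z.1.2) (l, α, β) = 0 := by
        intro j
        simp only [hcol]
        rw [if_neg hαβ]
      simp only [h2]
      simp only [hB, Matrix.of_apply]
      rw [if_neg hαβ]
      simp
  have hwli : LinearIndependent ℚ w := by
    rw [Fintype.linearIndependent_iff]
    intro c hc
    have h1 : c = 0 := by
      apply hε
      funext ρ
      have h2 := congrFun hc ρ
      rw [Finset.sum_apply] at h2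
      simp only [Pi.smul_apply, smul_eq_mul, Pi.zero_apply] at h2
      have h3 : y ρ.1 ^ (ρ.2.2 : ℕ) * ∑ z : IF, (B ρ z).eval ε * c z = 0 := by
        have h4 : y ρ.1 ^ (ρ.2.2 : ℕ) * ∑ z : IF, (B ρ z).eval ε * c z =
            ε ^ (ρ.2.2 : ℕ) * ∑ z : IF, c z * w z ρ := by
          rw [Finset.mul_sum, Finset.mul_sum]
          apply Finset.sum_congr rfl
          intro z _
          have h5 := hwB z ρ
          linear_combination (-c z) * h5
        rw [h4, h2, mul_zero]
      have h6 := (mul_eq_zero.1 h3).resolve_left (pow_ne_zero _ (hy0 _))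
      simpa [Matrix.mulVec, dotProduct] using h6
    intro z
    rw [h1]
    rfl
  obtain ⟨S', hS'1, hS'2, hS'3⟩ := extract S col w hwli (by
    intro z
    simp only [hw]
    apply Submodule.sum_mem
    intro j hj
    apply Submodule.smul_mem
    apply Submodule.subset_span
    refine ⟨((j : ℤ), z.1.2), ?_, rfl⟩
    simp only [hJ, Finset.mem_filter] at hj
    exact hj.2)
  refine ⟨S', hS'1, ?_, y, ?_⟩
  · rw [hS'2, Fintype.card_coe, hIF, Finset.card_sigma]
  · intro a ha
    rw [linearIndepOn_finset_iff] at hS'3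
    apply hS'3 a
    funext ρ
    obtain ⟨l, α, β⟩ := ρ
    rw [Finset.sum_apply]
    simp only [Pi.smul_apply, smul_eq_mul, Pi.zero_apply, hcol]
    by_cases hαβ : (α : ℕ) + (β : ℕ) < m
    · have h1 := ha l α β hαβ
      rw [← h1]
      apply Finset.sum_congr rfl
      intro q _
      rw [if_pos hαβ]
    · apply Finset.sum_eq_zero
      intro q _
      rw [if_neg hαβ, mul_zero]

end Pool.Agent.Helper66.UN.CMP
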